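import Pool.Agent.W555.KS.Defs

set_option autoImplicit false

namespace Pool.Agent.W837.KS

open Finset Pool.Agent.W555.KS

theorem bra_det {k : Type*} [Field k] [CharP k 2] {n m : ℕ} (a : Fin m → Fin n → k)
    (e : Fin m → Fin n) (he : Function.Injective e) :
    bra a (univ.image e) = Matrix.det (Matrix.of fun i j => a i (e j)) := by
  classical
  rw [← Matrix.det_transpose, Matrix.det_apply]
  unfold bra
  symm
  refine Finset.sum_bij (fun (σ : Equiv.Perm (Fin m)) _ => fun i => e (σ i)) ?_ ?_ ?_ ?_
  · intro σ _
    rw [Finset.mem_filter]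
    refine ⟨Finset.mem_univ _, he.comp σ.injective, ?_⟩
    ext x
    simp only [Finset.mem_image, Finset.mem_univ, true_and]
    constructor
    · rintro ⟨i, hi⟩
      exact ⟨σ i, hi⟩
    · rintro ⟨i, hi⟩
      exact ⟨σ.symm i, by simpa using hi⟩
  · intro σ _ τ _ h
    ext i
    exact congrArg Fin.val (he (congrFun h i))
  · intro h hh
    rw [Finset.mem_filter] at hh
    obtain ⟨_, hinj, him⟩ := hh
    have hex : ∀ i, ∃ j, e j = h i := by
      intro i
      have : h i ∈ univ.image e := by
        rw [← him]
        exact Finset.mem_image_of_mem _ (Finset.mem_univ _)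
      simpa using this
    choose s hs using hex
    have hsinj : Function.Injective s := by
      intro i j hij
      apply hinj
      rw [← hs i, ← hs j, hij]
    refine ⟨Equiv.ofBijective s (Finite.injective_iff_bijective.1 hsinj), Finset.mem_univ _, ?_⟩
    funext i
    exact hs i
  · intro σ _
    have h2 : (2 : k) = 0 := CharTwo.two_eq_zero
    have hsg : ∀ x : k, Equiv.Perm.sign σ • x = x := by
      intro x
      rcases Int.units_eq_one_or (Equiv.Perm.sign σ) with h | h
      · rw [h, one_smul]
      · rw [h, Units.neg_smul, one_smul, CharTwo.neg_eq]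
    rw [hsg]
    rfl

/-- KS-EXP: expansion of `bra` -/
theorem exp : StExp := by
  intro k _ _ n d a y W hW hy
  classical
  set w : Fin d → Fin n := fun i => W.orderEmbOfFin hW i with hw
  have hwinj : Function.Injective w := (W.orderEmbOfFin hW).injective
  have hwim : univ.image w = W := Finset.image_orderEmbOfFin_univ W hW
  have hmem : ∀ x, x ∈ W ↔ ∃ i, w i = x := by
    intro x
    conv_lhs => rw [← hwim]
    simp
  set M : Fin n → Matrix (Fin (d + 1)) (Fin (d + 1)) k := fun v =>
    Matrix.of fun i j => a i ((Fin.snoc w v : Fin (d + 1) → Fin n) j) with hM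
  have h1 : ∀ v ∈ Wᶜ, bra a (insert v W) = (M v).det := by
    intro v hv
    rw [Finset.mem_compl, hmem] at hv
    push Not at hv
    have hinj : Function.Injective (Fin.snoc w v : Fin (d + 1) → Fin n) := by
      intro i j
      induction i using Fin.lastCases with
      | last =>
        induction j using Fin.lastCases with
        | last => intro _; rfl
        | cast j =>
          intro h
          rw [Fin.snoc_last, Fin.snoc_castSucc] at h
          exact absurd h.symm (hv j)
      | cast i =>
        induction j using Fin.lastCases with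
        | last =>
          intro h
          rw [Fin.snoc_last, Fin.snoc_castSucc] at h
          exact absurd h (hv i)
        | cast j =>
          intro h
          rw [Fin.snoc_castSucc, Fin.snoc_castSucc] at h
          rw [hwinj h]
    have him : univ.image (Fin.snoc w v : Fin (d + 1) → Fin n) = insert v W := by
      ext x
      simp only [Finset.mem_image, Finset.mem_univ, true_and, Finset.mem_insert, hmem]
      constructor
      · rintro ⟨i, hi⟩
        induction i using Fin.lastCases with
        | last => left; rw [Fin.snoc_last] at hi; exact hi.symm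
        | cast i => right; rw [Fin.snoc_castSucc] at hi; exact ⟨i, hi⟩
      · rintro (h | ⟨i, hi⟩)
        · exact ⟨Fin.last d, by rw [Fin.snoc_last]; exact h.symm⟩
        · exact ⟨i.castSucc, by rw [Fin.snoc_castSucc]; exact hi⟩
    rw [← him, bra_det a _ hinj]
  have h2 : ∀ v ∈ W, (M v).det = 0 := by
    intro v hv
    obtain ⟨i, hi⟩ := (hmem v).1 hv
    refine Matrix.det_zero_of_column_eq (i := i.castSucc) (j := Fin.last d)
      (Fin.castSucc_lt_last i).ne ?_
    intro p
    simp only [hM, Matrix.of_apply, Fin.snoc_last, Fin.snoc_castSucc, hi]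
  have h3 : ∑ v ∈ Wᶜ, y v * bra a (insert v W) = ∑ v, y v * (M v).det := by
    rw [← Finset.sum_add_sum_compl W (fun v => y v * (M v).det)]
    rw [Finset.sum_eq_zero (s := W) fun v hv => by rw [h2 v hv, mul_zero], zero_add]
    exact Finset.sum_congr rfl fun v hv => by rw [h1 v hv]
  rw [h3]
  have h4 : ∀ v, (M v).det = ∑ i : Fin (d + 1), (-1) ^ ((i : ℕ) + (Fin.last d : ℕ)) * a i v *
      (Matrix.of fun p q : Fin d => a (i.succAbove p) (w q)).det := by
    intro v
    rw [Matrix.det_succ_column (M v) (Fin.last d)]
    refine Finset.sum_congr rfl fun i _ => ?_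
    congr 1
    · simp only [hM, Matrix.of_apply, Fin.snoc_last]
    · congr 1
      ext p q
      simp only [hM, Matrix.submatrix_apply, Matrix.of_apply, Fin.succAbove_last,
        Fin.snoc_castSucc]
  simp only [h4, Finset.mul_sum]
  rw [Finset.sum_comm, Fin.sum_univ_castSucc]
  have h5 : ∀ i : Fin d, ∑ v, y v * ((-1) ^ (((i.castSucc : Fin (d + 1)) : ℕ) +
      (Fin.last d : ℕ)) * a i.castSucc v *
      (Matrix.of fun p q : Fin d => a (i.castSucc.succAbove p) (w q)).det) = 0 := by
    intro i
    have : ∀ v, y v * ((-1) ^ (((i.castSucc : Fin (d + 1)) : ℕ) +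
      (Fin.last d : ℕ)) * a i.castSucc v *
      (Matrix.of fun p q : Fin d => a (i.castSucc.succAbove p) (w q)).det) =
      (a i.castSucc v * y v) * ((-1) ^ (((i.castSucc : Fin (d + 1)) : ℕ) + (Fin.last d : ℕ)) *
      (Matrix.of fun p q : Fin d => a (i.castSucc.succAbove p) (w q)).det) := fun v => by ring
    simp only [this]
    rw [← Finset.sum_mul, hy i, zero_mul]
  rw [Finset.sum_eq_zero fun i _ => h5 i, zero_add]
  have h6 : bra (fun i : Fin d => a i.castSucc) W =
      (Matrix.of fun p q : Fin d => a p.castSucc (w q)).det := by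
    conv_lhs => rw [← hwim]
    exact bra_det (fun i : Fin d => a i.castSucc) w hwinj
  rw [h6, Finset.sum_mul]
  refine Finset.sum_congr rfl fun v _ => ?_
  have h7 : ((-1 : k)) ^ ((Fin.last d : ℕ) + (Fin.last d : ℕ)) = 1 := by
    rw [← two_mul, pow_mul]
    simp
  rw [h7]
  simp only [Fin.succAbove_last]
  ring

end Pool.Agent.W837.KS
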